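import Mathlib
import Pool.Agent.KS6_19.TP.R107.P235

/-!
Generic treatment of `U / ((1-q^al)(1-q^be)(1-q^ga))` for the pentagonal theta series.
-/

namespace Pool.Agent.KS6_19.TP

open PowerSeries PowerSeries.WithPiTopology
open Pool.Agent.R107.QT
open Pool.Agent.R107.TruncTheta (R coeff_R_nonneg coeff_mul_nonneg)
open Pool.Agent.R107.QProd (constantCoeff_R)

variable {d : Par} {plo phi lo hi : ℤ}

lemma Bd3 (ok : Ok d plo phi lo hi) (hR : d.Rr = 3) (hS : d.S = 1) (m0 : ℕ)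
    (hsg : 2 ≤ d.sg)
    (hA : ∀ M : ℤ, (m0 : ℤ) + 1 ≤ M →
      (d.sg + 2) * (d.sg + 2) + 4 * ((hi - lo) + 2 - d.sg - plo) ≤ 4 * (M * M + M))
    (hB : ∀ M : ℤ, (m0 : ℤ) + 1 ≤ M →
      0 ≤ 4 * (M * M) + (7 - d.sg) * M + d.sg - 2 - phi - (hi - lo))
    (hC : ∀ M : ℤ, (m0 : ℤ) + 1 ≤ M → 0 ≤ 2 * (M * M) + (5 - d.sg) * M - (hi - lo) - 1) :
    Bd d (hi - lo) 1 m0 := by
  apply Bd_of ok
  intro M s y1 y2 hM hs0 hs1 h1 h2
  simp only [hR, hS] at hs1 h1 h2 ⊢
  push_cast at hs1 h1 h2 ⊢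
  have hA := hA M hM
  have hB := hB M hM
  have hC := hC M hM
  have hM0 : 0 ≤ M := by omega
  have hy2 : y2 = 0 := by
    rcases h2 with ⟨h2, _⟩ | ⟨_, h2⟩
    · exfalso
      nlinarith
    · exact h2
  rw [hy2]
  generalize hi - lo = e0 at *
  generalize d.sg = sg at *
  rcases h1 with ⟨h1, v, hv1, hv2, rfl⟩ | ⟨h1, rfl⟩
  · apply Pool.Agent.R107.P235.abs_key
    · have e1 := sq_nonneg (2 * s - (2 * M - sg - 2))
      nlinarith
    · have e2 : 0 ≤ s * (2 * M - s) := mul_nonneg hs0 (by omega)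
      have e3 : 0 ≤ (sg - 2) * (2 * M - s) := mul_nonneg (by omega) (by omega)
      nlinarith
  · apply Pool.Agent.R107.P235.abs_key
    · have e1 : 0 ≤ (M + 2) * (s - (2 * M + 1)) := mul_nonneg (by omega) (by omega)
      have e2 : 0 ≤ (M + 2) * (sg - 1) := mul_nonneg (by omega) (by omega)
      have e3 : 0 ≤ M * (sg - 1) := mul_nonneg (by omega) (by omega)
      nlinarith
    · have e1 : 0 ≤ M * (3 * M + 1 - s) := mul_nonneg hM0 (by omega)
      nlinarith

/-- check of positivity for one `N` and all indices, with a set `ex` of exceptions where only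
nonnegativity is asked -/
def chke (d : Par) (ex : ℕ → ℕ → Bool) (kmin : ℕ) (N : ℕ) : ℕ → ℤ → Bool
  | 0, _ => true
  | J + 1, acc => (Nat.blt (J + 1) kmin || (decide ((N : ℤ) < a d (J + 1)) ||
      (if ex (J + 1) N then decide (0 ≤ D d (J + 1) N - acc) else
        decide (1 ≤ D d (J + 1) N - acc)))) &&
      chke d ex kmin N J (D d (J + 1) N - acc)

lemma chke_spec (ex : ℕ → ℕ → Bool) (kmin N : ℕ) (J L : ℕ)
    (h : chke d ex kmin N J (cc d L (J + 1) N) = true) :
    ∀ k, 1 ≤ k → kmin ≤ k → k ≤ J → a d k ≤ N →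
      0 ≤ cc d (L + (J + 1 - k)) k N ∧ (ex k N = false → 1 ≤ cc d (L + (J + 1 - k)) k N) := by
  induction J generalizing L with
  | zero => intro k h1 _ h2; omega
  | succ J ih =>
    intro k h1 hmin h2 h4
    rw [chke, Bool.and_eq_true, Bool.or_eq_true, Bool.or_eq_true,
      decide_eq_true_eq] at h
    have e1 : D d (J + 1) N - cc d L (J + 1 + 1) N = cc d (L + 1) (J + 1) N := by
      rw [cc]
    rw [e1] at h
    rcases Nat.lt_or_ge J k with hk | hk
    · have : k = J + 1 := by omega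
      subst this
      rw [show J + 1 + 1 - (J + 1) = 1 by omega]
      rcases h.1 with h3 | h3 | h3
      · rw [Nat.blt_eq] at h3
        omega
      · omega
      · split_ifs at h3 with h5
        · rw [decide_eq_true_eq] at h3
          exact ⟨h3, fun h6 => by rw [h6] at h5; exact absurd h5 (by simp)⟩
        · rw [decide_eq_true_eq] at h3
          exact ⟨by omega, fun _ => h3⟩
    · have := ih (L + 1) h.2 k h1 hmin hk h4
      rwa [show L + 1 + (J + 1 - k) = L + (J + 1 + 1 - k) by omega] at this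

/-- positivity for all `N` -/
lemma pos_gen (ok : Ok d plo phi lo hi) (m0 : ℕ) (hB : Bd d (hi - lo) 1 m0)
    (hp : ∀ n : ℤ, 0 ≤ n → 1 ≤ p d n) (ex : ℕ → ℕ → Bool) (kmin : ℕ)
    (hc : ∀ N : ℕ, (N : ℤ) < a d (m0 + 1) → chke d ex kmin N m0 0 = true)
    (k N : ℕ) (hk : 1 ≤ k) (hmin : kmin ≤ k) (h1 : a d k ≤ N) :
    0 ≤ coeff N (P d * U d k) ∧ (ex k N = false → 1 ≤ coeff N (P d * U d k)) := by
  rw [coeff_P_mul_U ok]
  rcases lt_or_ge (N : ℤ) (a d (m0 + 1)) with h | h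
  · have h3 := le_a ok (k + (N + 1))
    have hkm : k ≤ m0 := by
      by_contra hh
      have := a_mono ok (show m0 + 1 ≤ k by omega)
      omega
    have h4 := chke_spec (d := d) ex kmin N m0 0 (by simpa [cc] using hc N h) k hk hmin hkm h1
    rwa [cc_indep ok (N + 1) (0 + (m0 + 1 - k)) k N (by push_cast at h3; omega)
      (by rw [show k + (0 + (m0 + 1 - k)) = m0 + 1 by omega]; exact h)]
  · have key : 1 ≤ cc d (N + 1) k N := by
      rcases large ok 1 m0 hB k N hk h1 h with h2 | h2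
      · have hQ : (0 : ℤ) < d.Q := by exact_mod_cast ok.Qpos
        by_contra hcon
        have : cc d (N + 1) k N ≤ 0 := by omega
        have := mul_nonpos_of_nonneg_of_nonpos hQ.le this
        omega
      · rw [h2]
        exact hp _ (by omega)
    exact ⟨by omega, fun _ => key⟩

lemma p_pos_gen (ok : Ok d plo phi lo hi) (hplo : -64 ≤ plo)
    (h : ∀ n : ℕ, n < 64 → 1 ≤ p d (n : ℤ)) (n : ℤ) (h0 : 0 ≤ n) : 1 ≤ p d n := by
  rcases lt_or_ge n 64 with h1 | h1
  · have := h n.toNat (by omega)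
    rwa [Int.toNat_of_nonneg h0] at this
  · have hQ : (0 : ℤ) < d.Q := by exact_mod_cast ok.Qpos
    have h4 : 0 < d.sg := by
      have := ok.alpos
      unfold Par.sg
      positivity
    have h2 := Q_mul_p ok (n := n) (by omega)
    have h3 := (per_bounds ok n).1
    by_contra hcon
    have h5 : p d n ≤ 0 := by omega
    have h6 := mul_nonpos_of_nonneg_of_nonpos hQ.le h5
    nlinarith

lemma van_gen (ok : Ok d plo phi lo hi) (k N : ℕ) (h : (N : ℤ) < a d k) :
    coeff N (P d * U d k) = 0 := by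
  rw [coeff_P_mul_U ok]
  exact cc_zero ok _ _ _ h

lemma nonneg_gen (ok : Ok d plo phi lo hi) (m0 : ℕ) (hB : Bd d (hi - lo) 1 m0)
    (hp : ∀ n : ℤ, 0 ≤ n → 1 ≤ p d n) (ex : ℕ → ℕ → Bool) (kmin : ℕ)
    (hc : ∀ N : ℕ, (N : ℤ) < a d (m0 + 1) → chke d ex kmin N m0 0 = true)
    (k N : ℕ) (hk : 1 ≤ k) (hmin : kmin ≤ k) : 0 ≤ coeff N (P d * U d k) := by
  rcases lt_or_ge (N : ℤ) (a d k) with h | h
  · rw [van_gen ok k N h]
  · exact (pos_gen ok m0 hB hp ex kmin hc k N hk hmin h).1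

end Pool.Agent.KS6_19.TP
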