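import Mathlib
import Pool.Agent.KS6_19.TP.Tri

/-!
The triples of parts that are used. (Generated tables.)
-/

namespace Pool.Agent.KS6_19.TP

open PowerSeries PowerSeries.WithPiTopology
open Pool.Agent.R107.QT

namespace t123

/-- the parts (1, 2, 3) -/
def d : Par := ⟨1, 2, 3, 6, 76176769434956, 3, 1⟩

lemma ok : Ok d (5) 12 (-7) 7 where
  Lpos := by decide +kernel
  hpar := by decide +kernel
  alpos := by decide +kernel
  bepos := by decide +kernel
  gapos := by decide +kernel
  hdiv := by decide +kernel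
  hcomb := by decide +kernel
  hneg := by decide +kernel
  h0 := by decide +kernel
  hper := by decide +kernel
  hW := by decide +kernel
  hS1 := by decide +kernel
  hS2 := by decide +kernel
  hS3 := by decide +kernel

lemma sg_eq : d.sg = 6 := by rfl

lemma bd : Bd d (7 - (-7)) 1 4 := by
  apply Bd3 ok rfl rfl 4 (by rw [sg_eq]; norm_num)
  · intro M hM
    rw [sg_eq]
    push_cast at hM
    nlinarith
  · intro M hM
    rw [sg_eq]
    push_cast at hM
    nlinarith
  · intro M hM
    rw [sg_eq]
    push_cast at hM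
    nlinarith

lemma pp (n : ℤ) (h : 0 ≤ n) : 1 ≤ p d n :=
  p_pos_gen ok (by norm_num) (by decide +kernel) n h

/-- the zeros for `k = 1` -/
def ex (k N : ℕ) : Bool := k == 1 && [13].contains N

lemma am : a d (4 + 1) = 40 := by decide +kernel

lemma chk0 : ∀ N : ℕ, N < 40 → chke d ex 1 N 4 0 = true := by decide +kernel

lemma chk : ∀ N : ℕ, (N : ℤ) < a d (4 + 1) → chke d ex 1 N 4 0 = true := by
  intro N hN
  rw [am] at hN
  exact chk0 N (by exact_mod_cast hN)

lemma pos (k N : ℕ) (hk : 1 ≤ k) (h1 : a d k ≤ N) (he : ex k N = false) :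
    1 ≤ coeff N (P d * U d k) :=
  (pos_gen ok 4 bd pp ex 1 chk k N hk hk h1).2 he

lemma nonneg (k N : ℕ) (hk : 1 ≤ k) : 0 ≤ coeff N (P d * U d k) :=
  nonneg_gen ok 4 bd pp ex 1 chk k N hk hk

end t123

namespace t125

/-- the parts (1, 2, 5) -/
def d : Par := ⟨1, 2, 5, 10, 336695687988462902070100, 3, 1⟩

lemma ok : Ok d (7) 20 (-21) 21 where
  Lpos := by decide +kernel
  hpar := by decide +kernel
  alpos := by decide +kernel
  bepos := by decide +kernel
  gapos := by decide +kernel
  hdiv := by decide +kernel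
  hcomb := by decide +kernel
  hneg := by decide +kernel
  h0 := by decide +kernel
  hper := by decide +kernel
  hW := by decide +kernel
  hS1 := by decide +kernel
  hS2 := by decide +kernel
  hS3 := by decide +kernel

lemma sg_eq : d.sg = 8 := by rfl

lemma bd : Bd d (21 - (-21)) 1 6 := by
  apply Bd3 ok rfl rfl 6 (by rw [sg_eq]; norm_num)
  · intro M hM
    rw [sg_eq]
    push_cast at hM
    nlinarith
  · intro M hM
    rw [sg_eq]
    push_cast at hM
    nlinarith
  · intro M hM
    rw [sg_eq]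
    push_cast at hM
    nlinarith

lemma pp (n : ℤ) (h : 0 ≤ n) : 1 ≤ p d n :=
  p_pos_gen ok (by norm_num) (by decide +kernel) n h

/-- the zeros for `k = 1` -/
def ex (k N : ℕ) : Bool := k == 1 && [11, 13, 15].contains N

lemma am : a d (6 + 1) = 77 := by decide +kernel

lemma chk0 : ∀ N : ℕ, N < 77 → chke d ex 1 N 6 0 = true := by decide +kernel

lemma chk : ∀ N : ℕ, (N : ℤ) < a d (6 + 1) → chke d ex 1 N 6 0 = true := by
  intro N hN
  rw [am] at hN
  exact chk0 N (by exact_mod_cast hN)

lemma pos (k N : ℕ) (hk : 1 ≤ k) (h1 : a d k ≤ N) (he : ex k N = false) :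
    1 ≤ coeff N (P d * U d k) :=
  (pos_gen ok 6 bd pp ex 1 chk k N hk hk h1).2 he

lemma nonneg (k N : ℕ) (hk : 1 ≤ k) : 0 ≤ coeff N (P d * U d k) :=
  nonneg_gen ok 6 bd pp ex 1 chk k N hk hk

end t125

namespace t127

/-- the parts (1, 2, 7) -/
def d : Par := ⟨1, 2, 7, 14, 1486980567100940106321878916813148, 3, 1⟩

lemma ok : Ok d (9) 32 (-35) 35 where
  Lpos := by decide +kernel
  hpar := by decide +kernel
  alpos := by decide +kernel
  bepos := by decide +kernel
  gapos := by decide +kernel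
  hdiv := by decide +kernel
  hcomb := by decide +kernel
  hneg := by decide +kernel
  h0 := by decide +kernel
  hper := by decide +kernel
  hW := by decide +kernel
  hS1 := by decide +kernel
  hS2 := by decide +kernel
  hS3 := by decide +kernel

lemma sg_eq : d.sg = 10 := by rfl

lemma bd : Bd d (35 - (-35)) 1 8 := by
  apply Bd3 ok rfl rfl 8 (by rw [sg_eq]; norm_num)
  · intro M hM
    rw [sg_eq]
    push_cast at hM
    nlinarith
  · intro M hM
    rw [sg_eq]
    push_cast at hM
    nlinarith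
  · intro M hM
    rw [sg_eq]
    push_cast at hM
    nlinarith

lemma pp (n : ℤ) (h : 0 ≤ n) : 1 ≤ p d n :=
  p_pos_gen ok (by norm_num) (by decide +kernel) n h

/-- the zeros for `k = 1` -/
def ex (k N : ℕ) : Bool := k == 1 && [7, 9, 11, 13, 14, 15].contains N

lemma am : a d (8 + 1) = 126 := by decide +kernel

lemma chk0 : ∀ N : ℕ, N < 126 → chke d ex 1 N 8 0 = true := by decide +kernel

lemma chk : ∀ N : ℕ, (N : ℤ) < a d (8 + 1) → chke d ex 1 N 8 0 = true := by
  intro N hN
  rw [am] at hN
  exact chk0 N (by exact_mod_cast hN)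

lemma pos (k N : ℕ) (hk : 1 ≤ k) (h1 : a d k ≤ N) (he : ex k N = false) :
    1 ≤ coeff N (P d * U d k) :=
  (pos_gen ok 8 bd pp ex 1 chk k N hk hk h1).2 he

lemma nonneg (k N : ℕ) (hk : 1 ≤ k) : 0 ≤ coeff N (P d * U d k) :=
  nonneg_gen ok 8 bd pp ex 1 chk k N hk hk

end t127

namespace t134

/-- the parts (1, 3, 4) -/
def d : Par := ⟨1, 3, 4, 12, 22065688608011904767312023384, 3, 1⟩

lemma ok : Ok d (4) 24 (-20) 20 where
  Lpos := by decide +kernel
  hpar := by decide +kernel
  alpos := by decide +kernel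
  bepos := by decide +kernel
  gapos := by decide +kernel
  hdiv := by decide +kernel
  hcomb := by decide +kernel
  hneg := by decide +kernel
  h0 := by decide +kernel
  hper := by decide +kernel
  hW := by decide +kernel
  hS1 := by decide +kernel
  hS2 := by decide +kernel
  hS3 := by decide +kernel

lemma sg_eq : d.sg = 8 := by rfl

lemma bd : Bd d (20 - (-20)) 1 6 := by
  apply Bd3 ok rfl rfl 6 (by rw [sg_eq]; norm_num)
  · intro M hM
    rw [sg_eq]
    push_cast at hM
    nlinarith
  · intro M hM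
    rw [sg_eq]
    push_cast at hM
    nlinarith
  · intro M hM
    rw [sg_eq]
    push_cast at hM
    nlinarith

lemma pp (n : ℤ) (h : 0 ≤ n) : 1 ≤ p d n :=
  p_pos_gen ok (by norm_num) (by decide +kernel) n h

/-- the zeros for `k = 1` -/
def ex (k N : ℕ) : Bool := k == 1 && [11, 13, 14, 17, 38, 41].contains N

lemma am : a d (6 + 1) = 77 := by decide +kernel

lemma chk0 : ∀ N : ℕ, N < 77 → chke d ex 1 N 6 0 = true := by decide +kernel

lemma chk : ∀ N : ℕ, (N : ℤ) < a d (6 + 1) → chke d ex 1 N 6 0 = true := by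
  intro N hN
  rw [am] at hN
  exact chk0 N (by exact_mod_cast hN)

lemma pos (k N : ℕ) (hk : 1 ≤ k) (h1 : a d k ≤ N) (he : ex k N = false) :
    1 ≤ coeff N (P d * U d k) :=
  (pos_gen ok 6 bd pp ex 1 chk k N hk hk h1).2 he

lemma nonneg (k N : ℕ) (hk : 1 ≤ k) : 0 ≤ coeff N (P d * U d k) :=
  nonneg_gen ok 6 bd pp ex 1 chk k N hk hk

end t134

namespace t135

/-- the parts (1, 3, 5) -/
def d : Par := ⟨1, 3, 5, 15, 375433924571597861175892063954687070, 3, 1⟩

lemma ok : Ok d (8) 30 (-34) 34 where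
  Lpos := by decide +kernel
  hpar := by decide +kernel
  alpos := by decide +kernel
  bepos := by decide +kernel
  gapos := by decide +kernel
  hdiv := by decide +kernel
  hcomb := by decide +kernel
  hneg := by decide +kernel
  h0 := by decide +kernel
  hper := by decide +kernel
  hW := by decide +kernel
  hS1 := by decide +kernel
  hS2 := by decide +kernel
  hS3 := by decide +kernel

lemma sg_eq : d.sg = 9 := by rfl

lemma bd : Bd d (34 - (-34)) 1 8 := by
  apply Bd3 ok rfl rfl 8 (by rw [sg_eq]; norm_num)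
  · intro M hM
    rw [sg_eq]
    push_cast at hM
    nlinarith
  · intro M hM
    rw [sg_eq]
    push_cast at hM
    nlinarith
  · intro M hM
    rw [sg_eq]
    push_cast at hM
    nlinarith

lemma pp (n : ℤ) (h : 0 ≤ n) : 1 ≤ p d n :=
  p_pos_gen ok (by norm_num) (by decide +kernel) n h

/-- the zeros for `k = 1` -/
def ex (k N : ℕ) : Bool := k == 1 && [10, 11, 13, 14, 16, 37].contains N

lemma am : a d (8 + 1) = 126 := by decide +kernel

lemma chk0 : ∀ N : ℕ, N < 126 → chke d ex 1 N 8 0 = true := by decide +kernel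

lemma chk : ∀ N : ℕ, (N : ℤ) < a d (8 + 1) → chke d ex 1 N 8 0 = true := by
  intro N hN
  rw [am] at hN
  exact chk0 N (by exact_mod_cast hN)

lemma pos (k N : ℕ) (hk : 1 ≤ k) (h1 : a d k ≤ N) (he : ex k N = false) :
    1 ≤ coeff N (P d * U d k) :=
  (pos_gen ok 8 bd pp ex 1 chk k N hk hk h1).2 he

lemma nonneg (k N : ℕ) (hk : 1 ≤ k) : 0 ≤ coeff N (P d * U d k) :=
  nonneg_gen ok 8 bd pp ex 1 chk k N hk hk

end t135

end Pool.Agent.KS6_19.TP
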