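import Mathlib
import Pool.Agent.KS6_19.TP.Tables

/-!
`F_{R,S,k}` for all moduli.
-/

namespace Pool.Agent.KS6_19.TP

open PowerSeries PowerSeries.WithPiTopology
open Pool.Agent.R107 Pool.Agent.R107.QT Pool.Agent.R107.QProd
open Pool.Agent.R107.TruncTheta (R coeff_R_nonneg coeff_mul_nonneg)

/-- `(q^a; q^m)_∞` -/
noncomputable def poch (a m : ℕ) : ℤ⟦X⟧ := ∏' i : ℕ, (1 - X ^ (a + m * i))

/-- The truncated pentagonal sum `P_k(q) = ∑_{i = 1-k}^{k} (-1)^i q^{i(3i-1)/2}`. -/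
noncomputable def Pk (k : ℕ) : ℤ⟦X⟧ :=
  ∑ i ∈ Finset.Icc (1 - (k : ℤ)) k, (-1) ^ i.natAbs * X ^ (i * (3 * i - 1) / 2).toNat

/-- `F_{r,s,k}(q) = (-1)^{k-1} (P_k(q) / (q;q)_∞ - 1) (q^s, q^{r-s}, q^r; q^r)_∞`. -/
noncomputable def F (r s k : ℕ) : ℤ⟦X⟧ :=
  (-1) ^ (k - 1) * (Pk k * invOfUnit (poch 1 1) 1 - 1) * (poch s r * poch (r - s) r * poch r r)

/-- the coefficients -/
noncomputable def c (r s k n : ℕ) : ℤ := coeff n (F r s k)

/-- `N_k = k(3k+1)/2` -/
def Nk (k : ℕ) : ℕ := k * (3 * k + 1) / 2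

/-- the residues of the theta product -/
def p0 (r s n : ℕ) : Prop := n % r = 0 ∨ n % r = s ∨ n % r = r - s

instance (r s : ℕ) : DecidablePred (p0 r s) := fun n => by unfold p0; infer_instance

/-- the complementary residues -/
def p1 (r s n : ℕ) : Prop := ¬ (n % r = 0 ∨ n % r = s ∨ n % r = r - s)

instance (r s : ℕ) : DecidablePred (p1 r s) := fun n => by unfold p1; infer_instance

lemma poch_eq (r t : ℕ) (ht : 1 ≤ t) (htr : t ≤ r) :
    poch t r = E (fun n => n % r = t % r) := by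
  unfold poch E
  have hinj : Function.Injective (fun i : ℕ => t + r * i - 1) := by
    intro i j h
    have h' : t + r * i - 1 = t + r * j - 1 := h
    have h2 : r * i = r * j := by omega
    exact Nat.eq_of_mul_eq_mul_left (by omega) h2
  have := hinj.tprod_eq (f := fun n : ℕ => (if (n + 1) % r = t % r then (1 : ℤ⟦X⟧) - X ^ (n + 1)
    else 1)) (by
      intro n hn
      rw [Function.mem_mulSupport] at hn
      have h1 : (n + 1) % r = t % r := by
        by_contra h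
        exact hn (if_neg h)
      rcases Nat.lt_or_ge (n + 1) t with h2 | h2
      · exfalso
        rcases Nat.lt_or_ge t r with h3 | h3
        · rw [Nat.mod_eq_of_lt h3, Nat.mod_eq_of_lt (by omega)] at h1
          omega
        · have : t = r := by omega
          subst this
          rw [Nat.mod_self, Nat.mod_eq_of_lt h2] at h1
          omega
      · have h3 : r ∣ (n + 1) - t := (Nat.modEq_iff_dvd' h2).1 h1.symm
        obtain ⟨i, hi⟩ := h3
        exact ⟨i, by show t + r * i - 1 = n; omega⟩)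
  rw [← this]
  apply tprod_congr
  intro i
  have h1 : t + r * i - 1 + 1 = t + r * i := by omega
  rw [h1, if_pos (by rw [Nat.add_mul_mod_self_left])]

lemma E_or (pr qr tr : ℕ → Prop) [DecidablePred pr] [DecidablePred qr] [DecidablePred tr]
    (h : ∀ n, tr n ↔ (pr n ∨ qr n)) (hd : ∀ n, ¬ (pr n ∧ qr n)) : E tr = E pr * E qr := by
  unfold E
  rw [← (multipliable_E pr).tprod_mul (multipliable_E qr)]
  apply tprod_congr
  intro n
  have h1 := h (n + 1)
  have h2 := hd (n + 1)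
  by_cases hp : pr (n + 1)
  · have hq : ¬ qr (n + 1) := fun hq => h2 ⟨hp, hq⟩
    rw [if_pos hp, if_neg hq, if_pos (h1.2 (Or.inl hp)), mul_one]
  · by_cases hq : qr (n + 1)
    · rw [if_neg hp, if_pos hq, if_pos (h1.2 (Or.inr hq)), one_mul]
    · rw [if_neg hp, if_neg hq, if_neg (fun ht => by rcases h1.1 ht with h3 | h3 <;> contradiction),
        one_mul]

variable {r s : ℕ}

lemma th_eq (hs : 1 ≤ s) (hr : 2 * s < r) :
    poch s r * poch (r - s) r * poch r r = E (p0 r s) := by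
  rw [poch_eq r s hs (by omega), poch_eq r (r - s) (by omega) (by omega),
    poch_eq r r (by omega) le_rfl]
  have e1 : s % r = s := Nat.mod_eq_of_lt (by omega)
  have e2 : (r - s) % r = r - s := Nat.mod_eq_of_lt (by omega)
  rw [← E_or (fun n => n % r = s % r) (fun n => n % r = (r - s) % r)
    (fun n => n % r = s % r ∨ n % r = (r - s) % r) (fun n => Iff.rfl)
    (fun n h => by rw [e1, e2] at h; omega)]
  rw [← E_or (fun n => n % r = s % r ∨ n % r = (r - s) % r) (fun n => n % r = r % r)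
    (p0 r s) (fun n => by rw [e1, e2, Nat.mod_self]; unfold p0; tauto)
    (fun n h => by rw [e1, e2, Nat.mod_self] at h; omega)]

lemma qq_eq : poch 1 1 = E (p0 r s) * E (p1 r s) := by
  have : poch 1 1 = ∏' n : ℕ, ((1 : ℤ⟦X⟧) - X ^ (n + 1)) := by
    unfold poch
    apply tprod_congr
    intro n
    rw [one_mul, add_comm]
  rw [this]
  apply E_split
  intro n
  unfold p0 p1
  exact Iff.rfl

lemma inv_qq : invOfUnit (poch 1 1) 1 = R (p0 r s) * R (p1 r s) := by
  have hc : constantCoeff (poch 1 1) = ((1 : ℤˣ) : ℤ) := by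
    rw [qq_eq (r := r) (s := s), map_mul, constantCoeff_E, constantCoeff_E]
    rfl
  have h1 := mul_invOfUnit (poch 1 1) 1 hc
  have h2 : poch 1 1 * (R (p0 r s) * R (p1 r s)) = 1 := by
    rw [qq_eq (r := r) (s := s)]
    calc E (p0 r s) * E (p1 r s) * (R (p0 r s) * R (p1 r s)) =
          (E (p0 r s) * R (p0 r s)) * (E (p1 r s) * R (p1 r s)) := by ring
      _ = 1 := by rw [E_mul_R, E_mul_R, one_mul]
  calc invOfUnit (poch 1 1) 1 = (poch 1 1 * (R (p0 r s) * R (p1 r s))) *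
        invOfUnit (poch 1 1) 1 := by rw [h2, one_mul]
    _ = (R (p0 r s) * R (p1 r s)) * (poch 1 1 * invOfUnit (poch 1 1) 1) := by ring
    _ = _ := by rw [h1, mul_one]

lemma F_eq (hs : 1 ≤ s) (hr : 2 * s < r) (k : ℕ) :
    F r s k = (-1) ^ (k - 1) * (Pk k - poch 1 1) * R (p1 r s) := by
  unfold F
  rw [inv_qq (r := r) (s := s), th_eq hs hr]
  have h1 := E_mul_R (p0 r s)
  have h2 := E_mul_R (p1 r s)
  have h3 : E (p0 r s) = poch 1 1 * R (p1 r s) := by
    rw [qq_eq (r := r) (s := s), mul_assoc, h2, mul_one]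
  calc (-1) ^ (k - 1) * (Pk k * (R (p0 r s) * R (p1 r s)) - 1) * E (p0 r s) =
      (-1) ^ (k - 1) * (Pk k * R (p1 r s) * (E (p0 r s) * R (p0 r s)) - E (p0 r s)) := by ring
    _ = (-1) ^ (k - 1) * (Pk k * R (p1 r s) - poch 1 1 * R (p1 r s)) := by rw [h1, mul_one, ← h3]
    _ = _ := by ring

lemma Pk_eq (k : ℕ) : Pk k = ∑ m ∈ Finset.range k,
    (-1) ^ m * ((X : ℤ⟦X⟧) ^ pentagonal (-(m : ℤ)) - X ^ pentagonal ((m : ℤ) + 1)) := by
  induction k with
  | zero => simp [Pk]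
  | succ k ih =>
    rw [Finset.sum_range_succ, ← ih]
    unfold Pk
    have h : Finset.Icc (1 - ((k + 1 : ℕ) : ℤ)) ((k + 1 : ℕ) : ℤ) =
        insert (-(k : ℤ)) (insert ((k : ℤ) + 1) (Finset.Icc (1 - (k : ℤ)) k)) := by
      ext i
      simp only [Finset.mem_Icc, Finset.mem_insert]
      push_cast
      omega
    rw [h, Finset.sum_insert (by
      simp only [Finset.mem_insert, Finset.mem_Icc]
      omega), Finset.sum_insert (by
      simp only [Finset.mem_Icc]
      omega)]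
    have e1 : (-(k : ℤ)).natAbs = k := by omega
    have e2 : ((k : ℤ) + 1).natAbs = k + 1 := by omega
    rw [e1, e2, ← pentagonal_def, ← pentagonal_def, pow_succ]
    ring

lemma pent_a (J : ℕ) : pentagonal (-(J : ℤ)) = (a (P235.dd 1) J).toNat := by
  have h1 := two_mul_natCast_pentagonal_neg (J : ℤ)
  have h2 := two_tri' J
  have h3 := a_nonneg P235.ok1 J
  have h4 : 2 * a (P235.dd 1) J = J * (3 * J + 1) := by
    unfold a
    have e1 : ((P235.dd 1).Rr : ℤ) = 3 := rfl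
    have e2 : ((P235.dd 1).S : ℤ) = 1 := rfl
    rw [e1, e2]
    linear_combination 3 * h2
  omega

lemma pent_b (J : ℕ) : pentagonal ((J : ℤ) + 1) = (b (P235.dd 1) J).toNat := by
  have h1 := two_mul_natCast_pentagonal ((J : ℤ) + 1)
  have h2 := two_tri' J
  have h3 := b_nonneg P235.ok1 J
  have h4 : 2 * b (P235.dd 1) J = (J + 1) * (3 * (J + 1) - 1) := by
    unfold b
    have e1 : ((P235.dd 1).Rr : ℤ) = 3 := rfl
    have e2 : ((P235.dd 1).S : ℤ) = 1 := rfl
    rw [e1, e2]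
    linear_combination 3 * h2
  omega

/-- the tail series -/
noncomputable abbrev V (k : ℕ) : ℤ⟦X⟧ := U (P235.dd 1) k

lemma tail (k : ℕ) : poch 1 1 - Pk k = (-1) ^ k * V k := by
  have hp : poch 1 1 = ∏' n : ℕ, ((1 : ℤ⟦X⟧) - X ^ (n + 1)) := by
    unfold poch
    apply tprod_congr
    intro n
    rw [one_mul, add_comm]
  have h1 : HasSum (fun m : ℕ => (-1) ^ m *
      ((X : ℤ⟦X⟧) ^ pentagonal (-(m : ℤ)) - X ^ pentagonal ((m : ℤ) + 1))) (poch 1 1) := by
    have := hasSum_pow_pentagonal_sub_pentagonalSeries ℤ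
    rw [← tprod_one_sub_X_pow] at this
    rw [hp]
    exact this
  have h2 := (hasSum_nat_add_iff' k).2 h1
  rw [← Pk_eq] at h2
  have h3 := (hasSum_U P235.ok1 k).mul_left ((-1 : ℤ⟦X⟧) ^ k)
  have h4 : ∀ i : ℕ, (-1 : ℤ⟦X⟧) ^ k * ((-1) ^ i *
      (X ^ (a (P235.dd 1) (k + i)).toNat - X ^ (b (P235.dd 1) (k + i)).toNat)) =
      (-1) ^ (i + k) * ((X : ℤ⟦X⟧) ^ pentagonal (-((i + k : ℕ) : ℤ)) -
        X ^ pentagonal (((i + k : ℕ) : ℤ) + 1)) := by
    intro i
    rw [pent_a, pent_b, add_comm k i, pow_add]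
    ring
  simp only [h4] at h3
  exact h2.unique h3

lemma F_eq_V (hs : 1 ≤ s) (hr : 2 * s < r) (k : ℕ) (hk : 1 ≤ k) :
    F r s k = V k * R (p1 r s) := by
  have h := tail k
  have h1 : Pk k - poch 1 1 = -((-1) ^ k * V k) := by rw [← h]; ring
  rw [F_eq hs hr, h1]
  obtain ⟨j, rfl⟩ : ∃ j, k = j + 1 := ⟨k - 1, by omega⟩
  rw [show j + 1 - 1 = j by omega, pow_succ]
  have e : ((-1 : ℤ⟦X⟧) ^ j) * (-1) ^ j = 1 := by rw [← mul_pow]; simp
  linear_combination (V (j + 1) * R (p1 r s)) * e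

/-- the remaining parts -/
abbrev rest (d : Par) (r s i : ℕ) : Prop := ((p1 r s i ∧ i ≠ d.al) ∧ i ≠ d.be) ∧ i ≠ d.ga

lemma F_eq1 {d : Par} {plo phi lo hi : ℤ} (ok : Ok d plo phi lo hi)
    (hU : ∀ k, U d k = V k) (hs : 1 ≤ s) (hr : 2 * s < r) (k : ℕ) (hk : 1 ≤ k)
    (h1 : p1 r s d.al) (h2 : p1 r s d.be) (h3 : p1 r s d.ga) (h4 : d.be ≠ d.al)
    (h5 : d.ga ≠ d.al) (h6 : d.ga ≠ d.be) :
    F r s k = (P d * U d k) * R (rest d r s) := by
  rw [F_eq_V hs hr k hk, R_eq_P_mul ok (p1 r s) h1 ⟨h2, h4⟩ ⟨⟨h3, h5⟩, h6⟩, hU]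
  ring

lemma p1_small (n : ℕ) (h0 : 0 < n) (h1 : n < r) (h2 : n ≠ s) (h3 : n ≠ r - s) : p1 r s n := by
  unfold p1
  rw [Nat.mod_eq_of_lt h1]
  omega

lemma Nk_eq (k : ℕ) : a (P235.dd 1) k = (Nk k : ℤ) := by
  have h := pent_a k
  have h1 := two_mul_natCast_pentagonal_neg (k : ℤ)
  have h3 := a_nonneg P235.ok1 k
  have h4 : 2 * Nk k = k * (3 * k + 1) := by
    unfold Nk
    apply Nat.mul_div_cancel'
    rcases Nat.even_or_odd k with ⟨r, hr⟩ | ⟨r, hr⟩
    · exact Dvd.dvd.mul_right ⟨r, by omega⟩ _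
    · exact Dvd.dvd.mul_left ⟨3 * r + 2, by omega⟩ _
  have h5 : 2 * (Nk k : ℤ) = k * (3 * k + 1) := by exact_mod_cast h4
  omega

/-- Adding one part removes all zeros. -/
lemma geo_pos (e : ℕ) (he : 0 < e) (f : ℤ⟦X⟧) (n0 : ℕ) (Z : ℕ → Bool)
    (hf0 : ∀ n, 0 ≤ coeff n f) (hf : ∀ n, n0 ≤ n → Z n = false → 1 ≤ coeff n f)
    (hZ : ∀ n, n0 ≤ n → Z n = true → e + n0 ≤ n) :
    (∀ n, 0 ≤ coeff n (geo e * f)) ∧ ∀ n, n0 ≤ n → 1 ≤ coeff n (geo e * f) := by
  have h0 : ∀ n, 0 ≤ coeff n (geo e * f) := by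
    intro n
    induction n using Nat.strong_induction_on with
    | _ n ih =>
      rw [coeff_geo_mul e he]
      have h1 := hf0 n
      split_ifs with h2
      · have := ih (n - e) (by omega)
        omega
      · omega
  refine ⟨h0, fun n => ?_⟩
  induction n using Nat.strong_induction_on with
  | _ n ih =>
    intro hn
    rw [coeff_geo_mul e he]
    have h1 := hf0 n
    cases hZn : Z n with
    | false =>
      have h2 := hf n hn hZn
      split_ifs with h3
      · have := h0 (n - e)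
        omega
      · omega
    | true =>
      have h2 := hZ n hn hZn
      rw [if_pos (by omega)]
      have := ih (n - e) (by omega) (by omega)
      omega

/-- the case of three parts including `1`, plus one more part `e` -/
lemma all_pos {d : Par} {plo phi lo hi : ℤ} (ok : Ok d plo phi lo hi)
    (hU : ∀ k, U d k = V k) (ha : ∀ k, a d k = a (P235.dd 1) k) (Z : ℕ → Bool)
    (hnn : ∀ k N : ℕ, 1 ≤ k → 0 ≤ coeff N (P d * U d k))
    (hpos : ∀ k N : ℕ, 1 ≤ k → a d k ≤ N → (k = 1 → Z N = false) → 1 ≤ coeff N (P d * U d k))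
    (hs : 1 ≤ s) (hr : 2 * s < r)
    (h1 : p1 r s d.al) (h2 : p1 r s d.be) (h3 : p1 r s d.ga) (h4 : d.be ≠ d.al)
    (h5 : d.ga ≠ d.al) (h6 : d.ga ≠ d.be) (e : ℕ) (he : 0 < e) (he1 : rest d r s e)
    (hZ : ∀ n, 2 ≤ n → Z n = true → e + 2 ≤ n) (k n : ℕ) (hk : 1 ≤ k) :
    0 ≤ c r s k n ∧ (c r s k n = 0 ↔ n < Nk k) := by
  have hF := F_eq1 ok hU hs hr k hk h1 h2 h3 h4 h5 h6
  have hF2 : F r s k = (geo e * (P d * U d k)) * R (fun i => rest d r s i ∧ i ≠ e) := by
    rw [hF, R_eq_geo_mul (rest d r s) e he he1]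
    ring
  have hnn0 : 0 ≤ c r s k n := by
    unfold c
    rw [hF]
    exact coeff_mul_nonneg (hnn k · hk) (fun n => coeff_R_nonneg _ n) n
  refine ⟨hnn0, ?_⟩
  constructor
  · intro h
    by_contra hn
    push Not at hn
    have hpos1 : 1 ≤ c r s k n := by
      rcases Nat.lt_or_ge 1 k with hk1 | hk1
      · unfold c
        rw [hF]
        refine le_trans (hpos k n hk (by rw [ha, Nk_eq]; exact_mod_cast hn) (by omega)) ?_
        exact P235.coeff_mul_ge (hnn k · hk) (fun n => coeff_R_nonneg _ n) (constantCoeff_R _) n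
      · have hk2 : k = 1 := by omega
        subst hk2
        have hN1 : Nk 1 = 2 := rfl
        obtain ⟨g0, g1⟩ := geo_pos e he (P d * U d 1) 2 Z (hnn 1 · le_rfl)
          (fun m hm hz => hpos 1 m le_rfl (by rw [ha, Nk_eq, hN1]; exact_mod_cast hm)
            (fun _ => hz)) hZ
        unfold c
        rw [hF2]
        exact le_trans (g1 n (by omega)) (P235.coeff_mul_ge g0 (fun n => coeff_R_nonneg _ n)
          (constantCoeff_R _) n)
    omega
  · intro h
    unfold c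
    rw [hF]
    rw [PowerSeries.coeff_mul]
    apply Finset.sum_eq_zero
    intro x hx
    rw [Finset.HasAntidiagonal.mem_antidiagonal] at hx
    rw [van_gen ok k x.1 (by rw [ha, Nk_eq]; exact_mod_cast (by omega : x.1 < Nk k)), zero_mul]

end Pool.Agent.KS6_19.TP
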