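import Mathlib
import Pool.Agent.KS6_19.TP.Main

/-!
The case distinction.
-/

namespace Pool.Agent.KS6_19.TP

open PowerSeries PowerSeries.WithPiTopology
open Pool.Agent.R107 Pool.Agent.R107.QT Pool.Agent.R107.QProd
open Pool.Agent.R107.TruncTheta (R coeff_R_nonneg coeff_mul_nonneg)

variable {r s : ℕ}

/-- `s ≥ 4` -/
lemma case4 (hs : 4 ≤ s) (hr : 2 * s < r) (k n : ℕ) (hk : 1 ≤ k) :
    0 ≤ c r s k n ∧ (c r s k n = 0 ↔ n < Nk k) := by
  have key : ∀ e : ℕ, 4 ≤ e → e ≤ 6 → rest t123.d r s e →
      0 ≤ c r s k n ∧ (c r s k n = 0 ↔ n < Nk k) := by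
    intro e he1 he2 he
    refine all_pos t123.ok (fun _ => rfl) (fun _ => rfl) (fun n => t123.ex 1 n)
      (fun k N hk => t123.nonneg k N hk) (fun k N hk h1 h2 => t123.pos k N hk h1 ?_)
      (by omega) hr
      (p1_small 1 (by omega) (by omega) (by omega) (by omega))
      (p1_small 2 (by omega) (by omega) (by omega) (by omega))
      (p1_small 3 (by omega) (by omega) (by omega) (by omega))
      (by decide) (by decide) (by decide) e (by omega) he ?_ k n hk
    · rcases Nat.lt_or_ge 1 k with h | h
      · simp [t123.ex]; omega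
      · have : k = 1 := by omega
        subst this
        exact h2 rfl
    · intro m hm hz
      simp only [t123.ex] at hz
      simp at hz
      omega
  have hrest : ∀ e : ℕ, 4 ≤ e → e < r → e ≠ s → e ≠ r - s → rest t123.d r s e := by
    intro e h1 h2 h3 h4
    refine ⟨⟨⟨p1_small e (by omega) h2 h3 h4, ?_⟩, ?_⟩, ?_⟩
    · show e ≠ 1; omega
    · show e ≠ 2; omega
    · show e ≠ 3; omega
  rcases Nat.lt_or_ge 4 s with h | h
  · exact key 4 le_rfl (by norm_num) (hrest 4 le_rfl (by omega) (by omega) (by omega))
  · have : s = 4 := by omega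
    subst this
    rcases Nat.lt_or_ge 9 r with h1 | h1
    · exact key 5 (by norm_num) (by norm_num) (hrest 5 (by norm_num) (by omega) (by omega)
        (by omega))
    · have : r = 9 := by omega
      subst this
      exact key 6 (by norm_num) (by norm_num) (hrest 6 (by norm_num) (by omega) (by omega)
        (by omega))

/-- `s = 3` -/
lemma case3 (hr : 6 < r) (k n : ℕ) (hk : 1 ≤ k) :
    0 ≤ c r 3 k n ∧ (c r 3 k n = 0 ↔ n < Nk k) := by
  by_cases h8 : r = 8
  · subst h8
    refine all_pos t127.ok (fun _ => rfl) (fun _ => rfl) (fun n => t127.ex 1 n)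
      (fun k N hk => t127.nonneg k N hk) (fun k N hk h1 h2 => t127.pos k N hk h1 ?_)
      (by omega) (by omega) (by decide) (by decide) (by decide)
      (by decide) (by decide) (by decide) 4 (by omega) (by decide) ?_ k n hk
    · rcases Nat.lt_or_ge 1 k with h | h
      · simp [t127.ex]; omega
      · have : k = 1 := by omega
        subst this
        exact h2 rfl
    · intro m hm hz
      simp only [t127.ex] at hz
      simp at hz
      omega
  · have key : ∀ e : ℕ, 4 ≤ e → e ≤ 6 → rest t125.d r 3 e →
        0 ≤ c r 3 k n ∧ (c r 3 k n = 0 ↔ n < Nk k) := by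
      intro e he1 he2 he
      refine all_pos t125.ok (fun _ => rfl) (fun _ => rfl) (fun n => t125.ex 1 n)
        (fun k N hk => t125.nonneg k N hk) (fun k N hk h1 h2 => t125.pos k N hk h1 ?_)
        (by omega) hr
        (p1_small 1 (by omega) (by omega) (by omega) (by omega))
        (p1_small 2 (by omega) (by omega) (by omega) (by omega))
        (p1_small 5 (by omega) (by omega) (by omega) (by omega))
        (by decide) (by decide) (by decide) e (by omega) he ?_ k n hk
      · rcases Nat.lt_or_ge 1 k with h | h
        · simp [t125.ex]; omega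
        · have : k = 1 := by omega
          subst this
          exact h2 rfl
      · intro m hm hz
        simp only [t125.ex] at hz
        simp at hz
        omega
    by_cases h7 : r = 7
    · subst h7
      exact key 6 (by norm_num) (by norm_num) (by decide)
    · refine key 4 (by norm_num) (by norm_num) ⟨⟨⟨p1_small 4 (by omega) (by omega) (by omega)
        (by omega), ?_⟩, ?_⟩, ?_⟩
      · show (4 : ℕ) ≠ 1; omega
      · show (4 : ℕ) ≠ 2; omega
      · show (4 : ℕ) ≠ 5; omega

/-- `s = 2`, `r ≥ 6` -/
lemma case2 (hr : 5 < r) (k n : ℕ) (hk : 1 ≤ k) :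
    0 ≤ c r 2 k n ∧ (c r 2 k n = 0 ↔ n < Nk k) := by
  by_cases h6 : r = 6
  · subst h6
    refine all_pos t135.ok (fun _ => rfl) (fun _ => rfl) (fun n => t135.ex 1 n)
      (fun k N hk => t135.nonneg k N hk) (fun k N hk h1 h2 => t135.pos k N hk h1 ?_)
      (by omega) (by omega) (by decide) (by decide) (by decide)
      (by decide) (by decide) (by decide) 7 (by omega) (by decide) ?_ k n hk
    · rcases Nat.lt_or_ge 1 k with h | h
      · simp [t135.ex]; omega
      · have : k = 1 := by omega
        subst this
        exact h2 rfl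
    · intro m hm hz
      simp only [t135.ex] at hz
      simp at hz
      omega
  · have key : ∀ e : ℕ, 4 ≤ e → e ≤ 8 → rest t134.d r 2 e →
        0 ≤ c r 2 k n ∧ (c r 2 k n = 0 ↔ n < Nk k) := by
      intro e he1 he2 he
      refine all_pos t134.ok (fun _ => rfl) (fun _ => rfl) (fun n => t134.ex 1 n)
        (fun k N hk => t134.nonneg k N hk) (fun k N hk h1 h2 => t134.pos k N hk h1 ?_)
        (by omega) (by omega)
        (p1_small 1 (by omega) (by omega) (by omega) (by omega))
        (p1_small 3 (by omega) (by omega) (by omega) (by omega))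
        (p1_small 4 (by omega) (by omega) (by omega) (by omega))
        (by decide) (by decide) (by decide) e (by omega) he ?_ k n hk
      · rcases Nat.lt_or_ge 1 k with h | h
        · simp [t134.ex]; omega
        · have : k = 1 := by omega
          subst this
          exact h2 rfl
      · intro m hm hz
        simp only [t134.ex] at hz
        simp at hz
        omega
    by_cases h7 : r = 7
    · subst h7
      exact key 8 (by norm_num) (by norm_num) (by decide)
    · refine key 5 (by norm_num) (by norm_num) ⟨⟨⟨p1_small 5 (by omega) (by omega) (by omega)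
        (by omega), ?_⟩, ?_⟩, ?_⟩
      · show (5 : ℕ) ≠ 1; omega
      · show (5 : ℕ) ≠ 3; omega
      · show (5 : ℕ) ≠ 4; omega

end Pool.Agent.KS6_19.TP
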