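import Mathlib
import Pool.Agent.KS6_19.TP.Main

/-!
Adding parts step by step, with explicit initial values.
-/

namespace Pool.Agent.KS6_19.TP

open PowerSeries PowerSeries.WithPiTopology
open Pool.Agent.R107 Pool.Agent.R107.QT Pool.Agent.R107.QProd
open Pool.Agent.R107.TruncTheta (R coeff_R_nonneg coeff_mul_nonneg)

/-- one step, first form -/
lemma stepA (e : ℕ) (he : 0 < e) (f : ℤ⟦X⟧) (v : ℕ → ℤ) (B n1 n0 : ℕ)
    (hv : ∀ m < B, coeff m f = v m) (hB : n1 ≤ B) (hf : ∀ n, n1 ≤ n → 0 ≤ coeff n f)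
    (h1 : n0 + e ≤ n1) (h2 : ∀ n < n1, n0 ≤ n → 1 ≤ gs e v n) :
    ∀ n, n0 ≤ n → 1 ≤ coeff n (geo e * f) := by
  intro n
  induction n using Nat.strong_induction_on with
  | _ n ih =>
    intro hn
    rcases Nat.lt_or_ge n n1 with h | h
    · rw [coeff_geo_eq e he f v B hv n (by omega)]
      exact h2 n h hn
    · rw [coeff_geo_mul e he, if_pos (by omega)]
      have := ih (n - e) (by omega) (by omega)
      have := hf n h
      omega

/-- one step, second form -/
lemma stepB (e : ℕ) (he : 0 < e) (f : ℤ⟦X⟧) (v : ℕ → ℤ) (B n1 n0 : ℕ)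
    (hv : ∀ m < B, coeff m f = v m) (hB : n1 ≤ B) (hf : ∀ n, n1 ≤ n → 1 ≤ coeff n f)
    (h1 : ∀ n < n1, 0 ≤ gs e v n) (h2 : ∀ n < n1, n0 ≤ n → 1 ≤ gs e v n) :
    (∀ n, 0 ≤ coeff n (geo e * f)) ∧ ∀ n, n0 ≤ n → 1 ≤ coeff n (geo e * f) := by
  have h0 : ∀ n, 0 ≤ coeff n (geo e * f) ∧ (n1 ≤ n → 1 ≤ coeff n (geo e * f)) := by
    intro n
    induction n using Nat.strong_induction_on with
    | _ n ih =>
      rcases Nat.lt_or_ge n n1 with h | h
      · rw [coeff_geo_eq e he f v B hv n (by omega)]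
        exact ⟨h1 n h, fun h3 => by omega⟩
      · rw [coeff_geo_mul e he]
        have h3 := hf n h
        split_ifs with h4
        · have := (ih (n - e) (by omega)).1
          omega
        · omega
  refine ⟨fun n => (h0 n).1, fun n hn => ?_⟩
  rcases Nat.lt_or_ge n n1 with h | h
  · rw [coeff_geo_eq e he f v B hv n (by omega)]
    exact h2 n h hn
  · exact (h0 n).2 h

/-- nonnegativity from values -/
lemma nn_of (f : ℤ⟦X⟧) (v : ℕ → ℤ) (B n1 : ℕ)
    (hv : ∀ m < B, coeff m f = v m) (hB : n1 ≤ B) (hf : ∀ n, n1 ≤ n → 1 ≤ coeff n f)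
    (h1 : ∀ n < n1, 0 ≤ v n) (n : ℕ) : 0 ≤ coeff n f := by
  rcases Nat.lt_or_ge n n1 with h | h
  · rw [hv n (by omega)]
    exact h1 n h
  · have := hf n h
    omega

/-- positivity of the alternating sum, for a single `N` -/
lemma pos_gen1 {d : Par} {plo phi lo hi : ℤ}
    (ok : Ok d plo phi lo hi) (m0 : ℕ) (hB : Bd d (hi - lo) 1 m0)
    (hp : ∀ n : ℤ, 0 ≤ n → 1 ≤ p d n) (ex : ℕ → ℕ → Bool) (kmin k N : ℕ)
    (hc : (N : ℤ) < a d (m0 + 1) → chke d ex kmin N m0 0 = true)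
    (hk : 1 ≤ k) (hmin : kmin ≤ k) (h1 : a d k ≤ N) :
    0 ≤ coeff N (P d * U d k) ∧ (ex k N = false → 1 ≤ coeff N (P d * U d k)) := by
  rw [coeff_P_mul_U ok]
  rcases lt_or_ge (N : ℤ) (a d (m0 + 1)) with h | h
  · have h3 := le_a ok (k + (N + 1))
    have hkm : k ≤ m0 := by
      by_contra hh
      have := a_mono ok (show m0 + 1 ≤ k by omega)
      omega
    have h4 := chke_spec (d := d) ex kmin N m0 0 (by simpa [cc] using hc h) k hk hmin hkm h1
    rwa [cc_indep ok (N + 1) (0 + (m0 + 1 - k)) k N (by push_cast at h3; omega)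
      (by rw [show k + (0 + (m0 + 1 - k)) = m0 + 1 by omega]; exact h)]
  · have key : 1 ≤ cc d (N + 1) k N := by
      rcases large ok 1 m0 hB k N hk h1 h with h2 | h2
      · have hQ : (0 : ℤ) < d.Q := by exact_mod_cast ok.Qpos
        by_contra hcon
        have : cc d (N + 1) k N ≤ 0 := by omega
        have := mul_nonpos_of_nonneg_of_nonpos hQ.le this
        omega
      · rw [h2]
        exact hp _ (by omega)
    exact ⟨by omega, fun _ => key⟩

lemma coeff_eq_cc {d : Par} {plo phi lo hi : ℤ}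
    (ok : Ok d plo phi lo hi) (k L N : ℕ) (h : (N : ℤ) < a d (k + L)) :
    coeff N (P d * U d k) = cc d L k (N : ℤ) := by
  rw [coeff_P_mul_U ok]
  apply cc_indep ok _ _ _ _ _ h
  have := le_a ok (k + (N + 1))
  push_cast at this
  omega

lemma coeff_zero_of_lt {f g : ℤ⟦X⟧} (n : ℕ) (h : ∀ i ≤ n, coeff i f = 0) :
    coeff n (f * g) = 0 := by
  rw [PowerSeries.coeff_mul]
  apply Finset.sum_eq_zero
  intro x hx
  rw [Finset.HasAntidiagonal.mem_antidiagonal] at hx
  rw [h x.1 (by omega), zero_mul]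

end Pool.Agent.KS6_19.TP
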