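import Mathlib
import Pool.Agent.KS6_19.TP.Steps

/-!
The four pairs `(r, s)` with negative coefficients.
-/

namespace Pool.Agent.KS6_19.TP

open PowerSeries PowerSeries.WithPiTopology
open Pool.Agent.R107 Pool.Agent.R107.QT Pool.Agent.R107.QProd
open Pool.Agent.R107.TruncTheta (R coeff_R_nonneg coeff_mul_nonneg)

/-- initial values of the tail series -/
def u1 (n : ℕ) : ℤ := if n = 2 then 1 else if n = 5 ∨ n = 7 then -1 else 0

lemma V1_eq (n : ℕ) (hn : n < 8) : coeff n (V 1) = u1 n := by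
  have key : ∀ n : ℕ, n < 8 → (∑ i ∈ Finset.range (n + 1), (-1 : ℤ) ^ i *
    ((if a (P235.dd 1) (1 + i) = n then 1 else 0) -
      (if b (P235.dd 1) (1 + i) = n then 1 else 0))) = u1 n := by decide +kernel
  unfold V U
  rw [PowerSeries.coeff_mk]
  exact key n hn

lemma F_V (r : ℕ) (hr : 3 ≤ r) : F r 1 1 = V 1 * R (p1 r 1) := F_eq_V le_rfl (by omega) 1 le_rfl

lemma neg3 : c 3 1 1 5 = -1 := by
  unfold c
  rw [F_V 3 le_rfl, P235.coeff_mul_of_gap (constantCoeff_R _) 10 5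
    (fun i h0 h1 => P235.coeff_R_zero _ 10 (fun i hi h0 => by
      unfold p1 at hi
      omega) i h0 h1) (fun i hi => by omega), V1_eq 5 (by norm_num)]
  decide

lemma neg4 : c 4 1 1 5 = -1 := by
  unfold c
  rw [F_V 4 (by norm_num), R_eq_geo_mul (p1 4 1) 2 (by norm_num) (by decide), ← mul_assoc,
    P235.coeff_mul_of_gap (constantCoeff_R _) 6 5
    (fun i h0 h1 => P235.coeff_R_zero _ 6 (fun i hi h0 => by
      obtain ⟨hi, h2⟩ := hi
      unfold p1 at hi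
      omega) i h0 h1) (fun i hi => by omega), mul_comm (V 1),
    coeff_geo_eq 2 (by norm_num) _ u1 8 V1_eq 5 (by norm_num)]
  decide

lemma neg5 : c 5 1 1 7 = -1 := by
  unfold c
  rw [F_V 5 (by norm_num), R_eq_geo_mul (p1 5 1) 2 (by norm_num) (by decide),
    R_eq_geo_mul (fun i => p1 5 1 i ∧ i ≠ 2) 3 (by norm_num) (by decide)]
  have e : V 1 * (geo 2 * (geo 3 * R fun i => (p1 5 1 i ∧ i ≠ 2) ∧ i ≠ 3)) =
      (geo 3 * (geo 2 * V 1)) * R fun i => (p1 5 1 i ∧ i ≠ 2) ∧ i ≠ 3 := by ring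
  have hv := coeff_geo_eq 2 (by norm_num) (V 1) u1 8 V1_eq
  rw [e, P235.coeff_mul_of_gap (constantCoeff_R _) 7 7
    (fun i h0 h1 => P235.coeff_R_zero _ 7 (fun i hi h0 => by
      obtain ⟨⟨hi, h2⟩, h3⟩ := hi
      unfold p1 at hi
      omega) i h0 h1) (fun i hi => by
        have : i = 0 := by omega
        subst this
        rw [coeff_geo_eq 3 (by norm_num) _ _ 8 hv 0 (by norm_num)]
        decide), coeff_geo_eq 3 (by norm_num) _ _ 8 hv 7 (by norm_num)]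
  decide

lemma neg6 : c 6 1 1 7 = -1 := by
  unfold c
  rw [F_V 6 (by norm_num), R_eq_geo_mul (p1 6 1) 2 (by norm_num) (by decide),
    R_eq_geo_mul (fun i => p1 6 1 i ∧ i ≠ 2) 3 (by norm_num) (by decide),
    R_eq_geo_mul (fun i => (p1 6 1 i ∧ i ≠ 2) ∧ i ≠ 3) 4 (by norm_num) (by decide)]
  have e : V 1 * (geo 2 * (geo 3 * (geo 4 * R fun i => ((p1 6 1 i ∧ i ≠ 2) ∧ i ≠ 3) ∧ i ≠ 4))) =
      (geo 4 * (geo 3 * (geo 2 * V 1))) * R fun i => ((p1 6 1 i ∧ i ≠ 2) ∧ i ≠ 3) ∧ i ≠ 4 := by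
    ring
  have hv := coeff_geo_eq 2 (by norm_num) (V 1) u1 8 V1_eq
  have hv2 := coeff_geo_eq 3 (by norm_num) _ _ 8 hv
  rw [e, P235.coeff_mul_of_gap (constantCoeff_R _) 8 7
    (fun i h0 h1 => P235.coeff_R_zero _ 8 (fun i hi h0 => by
      obtain ⟨⟨⟨hi, h2⟩, h3⟩, h4⟩ := hi
      unfold p1 at hi
      omega) i h0 h1) (fun i hi => by omega),
      coeff_geo_eq 4 (by norm_num) _ _ 8 hv2 7 (by norm_num)]
  decide

end Pool.Agent.KS6_19.TP
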