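import Mathlib
import Pool.Agent.KS6_19.TP.Steps

/-!
The case `s = 1`.
-/

namespace Pool.Agent.KS6_19.TP

open PowerSeries PowerSeries.WithPiTopology
open Pool.Agent.R107 Pool.Agent.R107.QT Pool.Agent.R107.QProd
open Pool.Agent.R107.TruncTheta (R coeff_R_nonneg coeff_mul_nonneg)

variable {r : ℕ}

/-- the parts `2, 3, 5` -/
abbrev dd := P235.dd 1

/-- the series without the other parts -/
noncomputable abbrev f0 (k : ℕ) : ℤ⟦X⟧ := P dd * U dd k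

lemma F1_eq (hr : 7 ≤ r) (k : ℕ) (hk : 1 ≤ k) : F r 1 k = f0 k * R (rest dd r 1) :=
  F_eq1 P235.ok1 (fun _ => rfl) (by norm_num) (by omega) k hk
    (p1_small 2 (by omega) (by omega) (by omega) (by omega))
    (p1_small 3 (by omega) (by omega) (by omega) (by omega))
    (p1_small 5 (by omega) (by omega) (by omega) (by omega)) (by decide) (by decide) (by decide)

lemma rest4 (hr : 7 ≤ r) : rest dd r 1 4 := by
  refine ⟨⟨⟨p1_small 4 (by omega) (by omega) (by omega) (by omega), ?_⟩, ?_⟩, ?_⟩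
  · show (4 : ℕ) ≠ 2; omega
  · show (4 : ℕ) ≠ 3; omega
  · show (4 : ℕ) ≠ 5; omega

lemma rest_ge (hr : 7 ≤ r) (i : ℕ) (hi : rest dd r 1 i) (h0 : 0 < i) : 4 ≤ i := by
  obtain ⟨⟨⟨h1, h2⟩, h3⟩, h4⟩ := hi
  have h2 : i ≠ 2 := h2
  have h3 : i ≠ 3 := h3
  by_contra hcon
  have : i = 1 := by omega
  subst this
  apply h1
  right; left
  exact Nat.mod_eq_of_lt (by omega)

lemma one_zero (hr : 7 ≤ r) (k n : ℕ) (hk : 1 ≤ k) (h : n < Nk k ∨ n = Nk k + 1) :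
    c r 1 k n = 0 := by
  unfold c
  rw [F1_eq hr k hk, P235.coeff_mul_of_gap (constantCoeff_R _) 4 n
    (fun i h0 h1 => P235.coeff_R_zero _ 4 (rest_ge hr) i h0 h1)]
  · apply P235.van k n hk
    rw [Nk_eq]
    omega
  · intro i hi
    apply P235.van k i hk
    rw [Nk_eq]
    omega

lemma one_pos3 (hr : 7 ≤ r) (k n : ℕ) (hk : 3 ≤ k) (h1 : Nk k ≤ n) (h2 : n ≠ Nk k + 1) :
    1 ≤ c r 1 k n := by
  have hnn : ∀ n, 0 ≤ coeff n (f0 k) := by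
    intro m
    by_cases h : Nk k ≤ m ∧ m ≠ Nk k + 1
    · have : 1 ≤ coeff m (f0 k) :=
        P235.pos3 k m hk (by rw [Nk_eq]; omega) (by rw [Nk_eq]; omega)
      omega
    · exact (P235.van k m (by omega) (by rw [Nk_eq]; omega)).ge
  unfold c
  rw [F1_eq hr k (by omega)]
  have h3 := P235.pos3 k n hk (by rw [Nk_eq]; omega) (by rw [Nk_eq]; omega)
  exact h3.trans (P235.coeff_mul_ge hnn (fun n => coeff_R_nonneg _ n) (constantCoeff_R _) n)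

/-- values for `k = 2` -/
def w2 (m : ℕ) : ℤ := cc dd 6 2 (m : ℤ)

lemma w2_eq (m : ℕ) (hm : m < 24) : coeff m (f0 2) = w2 m := by
  apply P235.coeff_eq_cc
  have : a dd (2 + 6) = 100 := by decide +kernel
  rw [this]
  omega

lemma gs2 : ∀ n : ℕ, n < 24 → 0 ≤ gs 4 w2 n ∧ (9 ≤ n → 1 ≤ gs 4 w2 n) ∧
    (n = 7 → 1 ≤ gs 4 w2 n) := by decide +kernel

lemma one_pos2 (hr : 7 ≤ r) (n : ℕ) (h1 : 7 ≤ n) (h2 : n ≠ 8) : 1 ≤ c r 1 2 n := by
  have hg := stepB 4 (by norm_num) (f0 2) w2 24 24 9 w2_eq le_rfl (fun n hn => P235.pos2 n hn)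
    (fun n hn => (gs2 n hn).1) (fun n hn h => (gs2 n hn).2.1 h)
  have hF : F r 1 2 = (geo 4 * f0 2) * R (fun i => rest dd r 1 i ∧ i ≠ 4) := by
    rw [F1_eq hr 2 (by norm_num), R_eq_geo_mul (rest dd r 1) 4 (by norm_num) (rest4 hr)]
    ring
  unfold c
  rw [hF]
  refine le_trans ?_ (P235.coeff_mul_ge hg.1 (fun n => coeff_R_nonneg _ n)
    (constantCoeff_R _) n)
  rcases Nat.lt_or_ge n 9 with h | h
  · have : n = 7 := by omega
    subst this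
    rw [coeff_geo_eq 4 (by norm_num) _ _ 24 w2_eq 7 (by norm_num)]
    exact (gs2 7 (by norm_num)).2.2 rfl
  · exact hg.2 n h

/-- values for `k = 1` -/
def v1 (m : ℕ) : ℤ := cc dd 8 1 (m : ℤ)

lemma v1_eq (m : ℕ) (hm : m < 82) : coeff m (f0 1) = v1 m := by
  apply P235.coeff_eq_cc
  have : a dd (1 + 8) = 126 := by decide +kernel
  rw [this]
  omega

/-- values with the part `4` -/
def v4 (n : ℕ) : ℤ := gs 4 v1 n

lemma v4_eq (m : ℕ) (hm : m < 82) : coeff m (geo 4 * f0 1) = v4 m :=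
  coeff_geo_eq 4 (by norm_num) _ _ 82 v1_eq m hm

lemma c4 : ∀ n : ℕ, n < 82 → 20 ≤ n → 1 ≤ v4 n := by decide +kernel

lemma f4_pos : ∀ n, 20 ≤ n → 1 ≤ coeff n (geo 4 * f0 1) :=
  stepA 4 (by norm_num) _ v1 82 82 20 v1_eq (by norm_num)
    (fun n hn => by have := P235.pos1 n hn; show 0 ≤ coeff n (P (P235.dd 1) * U (P235.dd 1) 1); omega)
    (by norm_num) (fun n h1 h2 => c4 n h1 h2)

lemma F1_eq4 (hr : 7 ≤ r) : F r 1 1 = (geo 4 * f0 1) * R (fun i => rest dd r 1 i ∧ i ≠ 4) := by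
  rw [F1_eq hr 1 (by norm_num), R_eq_geo_mul (rest dd r 1) 4 (by norm_num) (rest4 hr)]
  ring

/-! ### `r ≥ 9` -/

/-- values with the parts `4, 7` -/
def v47 (n : ℕ) : ℤ := gs 7 v4 n

lemma v47_eq (m : ℕ) (hm : m < 82) : coeff m (geo 7 * (geo 4 * f0 1)) = v47 m :=
  coeff_geo_eq 7 (by norm_num) _ _ 82 v4_eq m hm

lemma c47 : ∀ n : ℕ, n < 20 → 0 ≤ v47 n ∧ (8 ≤ n → 1 ≤ v47 n) := by decide +kernel

lemma c47b : ∀ n : ℕ, n < 8 → (v47 n = 0 ↔ (n < 2 ∨ n = 3 ∨ n = 5 ∨ n = 7)) := by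
  decide +kernel

lemma f47 : (∀ n, 0 ≤ coeff n (geo 7 * (geo 4 * f0 1))) ∧
    ∀ n, 8 ≤ n → 1 ≤ coeff n (geo 7 * (geo 4 * f0 1)) :=
  stepB 7 (by norm_num) _ v4 82 20 8 v4_eq (by norm_num) f4_pos
    (fun n h => (c47 n h).1) (fun n h1 h2 => (c47 n h1).2 h2)

lemma one9 (hr : 9 ≤ r) (n : ℕ) :
    0 ≤ c r 1 1 n ∧ (c r 1 1 n = 0 ↔ (n < 2 ∨ n = 3 ∨ n = 5 ∨ n = 7)) := by
  have h7 : rest dd r 1 7 ∧ 7 ≠ 4 := by
    refine ⟨⟨⟨⟨p1_small 7 (by omega) (by omega) (by omega) (by omega), ?_⟩, ?_⟩, ?_⟩, by omega⟩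
    · show (7 : ℕ) ≠ 2; omega
    · show (7 : ℕ) ≠ 3; omega
    · show (7 : ℕ) ≠ 5; omega
  have hF : F r 1 1 = (geo 7 * (geo 4 * f0 1)) *
      R (fun i => (rest dd r 1 i ∧ i ≠ 4) ∧ i ≠ 7) := by
    rw [F1_eq4 (by omega), R_eq_geo_mul (fun i => rest dd r 1 i ∧ i ≠ 4) 7 (by norm_num) h7]
    ring
  have hge : coeff n (geo 7 * (geo 4 * f0 1)) ≤ c r 1 1 n := by
    unfold c
    rw [hF]
    exact P235.coeff_mul_ge f47.1 (fun n => coeff_R_nonneg _ n) (constantCoeff_R _) n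
  have h0 := f47.1 n
  refine ⟨by omega, ?_⟩
  rcases Nat.lt_or_ge n 8 with hn | hn
  · have heq : c r 1 1 n = v47 n := by
      unfold c
      rw [hF, P235.coeff_mul_of_gap (constantCoeff_R _) 6 n
        (fun i h0 h1 => P235.coeff_R_zero _ 6 (fun i hi h0 => by
          obtain ⟨⟨hp, h4⟩, h7⟩ := hi
          have h5 := rest_ge (by omega) i hp h0
          have h6 : i ≠ 5 := hp.2
          omega) i h0 h1) (fun i hi => by
            rw [v47_eq i (by omega)]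
            exact (c47b i (by omega)).2 (by omega)), v47_eq n (by omega)]
    rw [heq]
    exact c47b n hn
  · have h1 := f47.2 n hn
    omega

/-! ### `r = 8` -/

/-- values with the parts `4, 11` -/
def v411 (n : ℕ) : ℤ := gs 11 v4 n

lemma v411_eq (m : ℕ) (hm : m < 82) : coeff m (geo 11 * (geo 4 * f0 1)) = v411 m :=
  coeff_geo_eq 11 (by norm_num) _ _ 82 v4_eq m hm

lemma c411 : ∀ n : ℕ, n < 20 → 0 ≤ v411 n ∧ (14 ≤ n → 1 ≤ v411 n) := by decide +kernel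

lemma f411 : (∀ n, 0 ≤ coeff n (geo 11 * (geo 4 * f0 1))) ∧
    ∀ n, 14 ≤ n → 1 ≤ coeff n (geo 11 * (geo 4 * f0 1)) :=
  stepB 11 (by norm_num) _ v4 82 20 14 v4_eq (by norm_num) f4_pos
    (fun n h => (c411 n h).1) (fun n h1 h2 => (c411 n h1).2 h2)

/-- values with the parts `4, 11, 6` -/
def v6 (n : ℕ) : ℤ := gs 6 v411 n

lemma v6_eq (m : ℕ) (hm : m < 82) : coeff m (geo 6 * (geo 11 * (geo 4 * f0 1))) = v6 m :=
  coeff_geo_eq 6 (by norm_num) _ _ 82 v411_eq m hm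

lemma c6 : ∀ n : ℕ, n < 14 → 0 ≤ v6 n := by decide +kernel

lemma f6 : (∀ n, 0 ≤ coeff n (geo 6 * (geo 11 * (geo 4 * f0 1)))) ∧
    ∀ n, 14 ≤ n → 1 ≤ coeff n (geo 6 * (geo 11 * (geo 4 * f0 1))) :=
  stepB 6 (by norm_num) _ v411 82 14 14 v411_eq (by norm_num) f411.2
    (fun n h => c6 n h) (fun n h1 h2 => by omega)

/-- values with the parts `4, 11, 6, 10` -/
def v10 (n : ℕ) : ℤ := gs 10 v6 n

lemma v10_eq (m : ℕ) (hm : m < 82) :
    coeff m (geo 10 * (geo 6 * (geo 11 * (geo 4 * f0 1)))) = v10 m :=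
  coeff_geo_eq 10 (by norm_num) _ _ 82 v6_eq m hm

lemma c10 : ∀ n : ℕ, n < 14 → 0 ≤ v10 n := by decide +kernel

lemma c10b : ∀ n : ℕ, n < 14 →
    (v10 n = 0 ↔ (n < 2 ∨ n = 3 ∨ n = 5 ∨ n = 7 ∨ n = 9 ∨ n = 11 ∨ n = 13)) := by
  decide +kernel

lemma f10 : (∀ n, 0 ≤ coeff n (geo 10 * (geo 6 * (geo 11 * (geo 4 * f0 1))))) ∧
    ∀ n, 14 ≤ n → 1 ≤ coeff n (geo 10 * (geo 6 * (geo 11 * (geo 4 * f0 1)))) :=
  stepB 10 (by norm_num) _ v6 82 14 14 v6_eq (by norm_num) f6.2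
    (fun n h => c10 n h) (fun n h1 h2 => by omega)

lemma one8 (n : ℕ) :
    0 ≤ c 8 1 1 n ∧ (c 8 1 1 n = 0 ↔
      (n < 2 ∨ n = 3 ∨ n = 5 ∨ n = 7 ∨ n = 9 ∨ n = 11 ∨ n = 13)) := by
  have hF : F 8 1 1 = (geo 10 * (geo 6 * (geo 11 * (geo 4 * f0 1)))) *
      R (fun i => (((rest dd 8 1 i ∧ i ≠ 4) ∧ i ≠ 11) ∧ i ≠ 6) ∧ i ≠ 10) := by
    rw [F1_eq4 (by omega), R_eq_geo_mul (fun i => rest dd 8 1 i ∧ i ≠ 4) 11 (by norm_num)
      (by decide), R_eq_geo_mul (fun i => (rest dd 8 1 i ∧ i ≠ 4) ∧ i ≠ 11) 6 (by norm_num)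
      (by decide), R_eq_geo_mul (fun i => ((rest dd 8 1 i ∧ i ≠ 4) ∧ i ≠ 11) ∧ i ≠ 6) 10
      (by norm_num) (by decide)]
    ring
  have hge : coeff n (geo 10 * (geo 6 * (geo 11 * (geo 4 * f0 1)))) ≤ c 8 1 1 n := by
    unfold c
    rw [hF]
    exact P235.coeff_mul_ge f10.1 (fun n => coeff_R_nonneg _ n) (constantCoeff_R _) n
  have h0 := f10.1 n
  refine ⟨by omega, ?_⟩
  rcases Nat.lt_or_ge n 14 with hn | hn
  · have heq : c 8 1 1 n = v10 n := by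
      unfold c
      rw [hF, P235.coeff_mul_of_gap (constantCoeff_R _) 12 n
        (fun i h0 h1 => P235.coeff_R_zero _ 12 (fun i hi h0 => by
          obtain ⟨⟨⟨⟨hp, h4⟩, h11⟩, h6⟩, h10⟩ := hi
          have h5 := rest_ge (by omega) i hp h0
          have h5' : i ≠ 5 := hp.2
          have h7 := hp.1.1.1
          unfold p1 at h7
          omega) i h0 h1) (fun i hi => by
            rw [v10_eq i (by omega)]
            exact (c10b i (by omega)).2 (by omega)), v10_eq n (by omega)]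
    rw [heq]
    exact c10b n hn
  · have h1 := f10.2 n hn
    omega

/-! ### `r = 7` -/

/-- values with the parts `4, 9` -/
def v49 (n : ℕ) : ℤ := gs 9 v4 n

lemma v49_eq (m : ℕ) (hm : m < 82) : coeff m (geo 9 * (geo 4 * f0 1)) = v49 m :=
  coeff_geo_eq 9 (by norm_num) _ _ 82 v4_eq m hm

lemma c49 : ∀ n : ℕ, n < 20 → 0 ≤ v49 n ∧ (14 ≤ n → 1 ≤ v49 n) := by decide +kernel

lemma f49 : (∀ n, 0 ≤ coeff n (geo 9 * (geo 4 * f0 1))) ∧
    ∀ n, 14 ≤ n → 1 ≤ coeff n (geo 9 * (geo 4 * f0 1)) :=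
  stepB 9 (by norm_num) _ v4 82 20 14 v4_eq (by norm_num) f4_pos
    (fun n h => (c49 n h).1) (fun n h1 h2 => (c49 n h1).2 h2)

/-- values with the parts `4, 9, 11` -/
def v11 (n : ℕ) : ℤ := gs 11 v49 n

lemma v11_eq (m : ℕ) (hm : m < 82) : coeff m (geo 11 * (geo 9 * (geo 4 * f0 1))) = v11 m :=
  coeff_geo_eq 11 (by norm_num) _ _ 82 v49_eq m hm

lemma c11 : ∀ n : ℕ, n < 14 → 0 ≤ v11 n ∧ (10 ≤ n → 1 ≤ v11 n) := by decide +kernel

lemma c11b : ∀ n : ℕ, n < 10 → (v11 n = 0 ↔ (n < 2 ∨ n = 3 ∨ n = 5 ∨ n = 7 ∨ n = 9)) := by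
  decide +kernel

lemma f11 : (∀ n, 0 ≤ coeff n (geo 11 * (geo 9 * (geo 4 * f0 1)))) ∧
    ∀ n, 10 ≤ n → 1 ≤ coeff n (geo 11 * (geo 9 * (geo 4 * f0 1))) :=
  stepB 11 (by norm_num) _ v49 82 14 10 v49_eq (by norm_num) f49.2
    (fun n h => (c11 n h).1) (fun n h1 h2 => (c11 n h1).2 h2)

lemma one7 (n : ℕ) :
    0 ≤ c 7 1 1 n ∧ (c 7 1 1 n = 0 ↔ (n < 2 ∨ n = 3 ∨ n = 5 ∨ n = 7 ∨ n = 9)) := by
  have hF : F 7 1 1 = (geo 11 * (geo 9 * (geo 4 * f0 1))) *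
      R (fun i => ((rest dd 7 1 i ∧ i ≠ 4) ∧ i ≠ 9) ∧ i ≠ 11) := by
    rw [F1_eq4 (by omega), R_eq_geo_mul (fun i => rest dd 7 1 i ∧ i ≠ 4) 9 (by norm_num)
      (by decide), R_eq_geo_mul (fun i => (rest dd 7 1 i ∧ i ≠ 4) ∧ i ≠ 9) 11 (by norm_num)
      (by decide)]
    ring
  have hge : coeff n (geo 11 * (geo 9 * (geo 4 * f0 1))) ≤ c 7 1 1 n := by
    unfold c
    rw [hF]
    exact P235.coeff_mul_ge f11.1 (fun n => coeff_R_nonneg _ n) (constantCoeff_R _) n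
  have h0 := f11.1 n
  refine ⟨by omega, ?_⟩
  rcases Nat.lt_or_ge n 10 with hn | hn
  · have heq : c 7 1 1 n = v11 n := by
      unfold c
      rw [hF, P235.coeff_mul_of_gap (constantCoeff_R _) 10 n
        (fun i h0 h1 => P235.coeff_R_zero _ 10 (fun i hi h0 => by
          obtain ⟨⟨⟨hp, h4⟩, h9⟩, h11⟩ := hi
          have h5 := rest_ge (by omega) i hp h0
          have h5' : i ≠ 5 := hp.2
          have h7 := hp.1.1.1
          unfold p1 at h7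
          omega) i h0 h1) (fun i hi => by
            rw [v11_eq i (by omega)]
            exact (c11b i (by omega)).2 (by omega)), v11_eq n (by omega)]
    rw [heq]
    exact c11b n hn
  · have h1 := f11.2 n hn
    omega

/-- the case `s = 1`, `r ≥ 7` -/
lemma case1 (hr : 7 ≤ r) (k n : ℕ) (hk : 1 ≤ k) :
    0 ≤ c r 1 k n ∧ (c r 1 k n = 0 ↔ n < Nk k ∨ n = Nk k + 1 ∨
      (k = 1 ∧ (n = 5 ∨ n = 7 ∨ (n = 9 ∧ r ≤ 8) ∨ ((n = 11 ∨ n = 13) ∧ r = 8)))) := by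
  have hN1 : Nk 1 = 2 := rfl
  have hN2 : Nk 2 = 7 := rfl
  rcases Nat.lt_or_ge k 3 with hk3 | hk3
  · have : k = 1 ∨ k = 2 := by omega
    rcases this with rfl | rfl
    · rcases Nat.lt_or_ge r 9 with h9 | h9
      · have : r = 7 ∨ r = 8 := by omega
        rcases this with rfl | rfl
        · refine ⟨(one7 n).1, (one7 n).2.trans ?_⟩
          omega
        · refine ⟨(one8 n).1, (one8 n).2.trans ?_⟩
          omega
      · refine ⟨(one9 h9 n).1, (one9 h9 n).2.trans ?_⟩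
        omega
    · by_cases h : n < Nk 2 ∨ n = Nk 2 + 1
      · have h1 := one_zero hr 2 n (by norm_num) h
        exact ⟨h1.ge, fun _ => by omega, fun _ => h1⟩
      · have h1 := one_pos2 hr n (by omega) (by omega)
        exact ⟨by omega, fun h2 => by omega, fun h2 => by omega⟩
  · by_cases h : n < Nk k ∨ n = Nk k + 1
    · have h1 := one_zero hr k n hk h
      exact ⟨h1.ge, fun _ => by omega, fun _ => h1⟩
    · have h1 := one_pos3 hr k n hk3 (by omega) (by omega)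
      exact ⟨by omega, fun h2 => by omega, fun h2 => by omega⟩

end Pool.Agent.KS6_19.TP
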