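import Mathlib
import Pool.Agent.KS6_19.TP.Steps

/-!
The case `r = 5`, `s = 2`.
-/

namespace Pool.Agent.KS6_19.TP

open PowerSeries PowerSeries.WithPiTopology
open Pool.Agent.R107 Pool.Agent.R107.QT Pool.Agent.R107.QProd
open Pool.Agent.R107.TruncTheta (R coeff_R_nonneg coeff_mul_nonneg)

namespace t149

/-- the parts (1, 4, 9) -/
def d : Par := ⟨1, 4, 9, 36, 150256184574121724840780622791788453673882674655751122574827493049337165914489355794824, 3, 1⟩

lemma ok : Ok d (-3) 81 (-132) 132 where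
  Lpos := by decide +kernel
  hpar := by decide +kernel
  alpos := by decide +kernel
  bepos := by decide +kernel
  gapos := by decide +kernel
  hdiv := by decide +kernel
  hcomb := by decide +kernel
  hneg := by decide +kernel
  h0 := by decide +kernel
  hper := by decide +kernel
  hW := by decide +kernel
  hS1 := by decide +kernel
  hS2 := by decide +kernel
  hS3 := by decide +kernel

lemma sg_eq : d.sg = 14 := by rfl

lemma bd : Bd d (132 - (-132)) 1 17 := by
  apply Bd3 ok rfl rfl 17 (by rw [sg_eq]; norm_num)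
  · intro M hM
    rw [sg_eq]
    push_cast at hM
    nlinarith
  · intro M hM
    rw [sg_eq]
    push_cast at hM
    nlinarith
  · intro M hM
    rw [sg_eq]
    push_cast at hM
    nlinarith

lemma pp (n : ℤ) (h : 0 ≤ n) : 1 ≤ p d n :=
  p_pos_gen ok (by norm_num) (by decide +kernel) n h

/-- exceptions -/
def ex (k N : ℕ) : Bool := k == 1 || (k == 2 && [21, 24, 25].contains N)

lemma am : a d (17 + 1) = 495 := by decide +kernel

lemma chkA : ∀ N : ℕ, N < 495 → 36 ≤ N → chke d ex 1 N 17 0 = true := by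
  decide +kernel

lemma chkB : ∀ N : ℕ, N < 495 → chke d ex 2 N 17 0 = true := by decide +kernel

lemma nn1 (N : ℕ) (h : 36 ≤ N) : 0 ≤ coeff N (P d * U d 1) := by
  refine (pos_gen1 ok 17 bd pp ex 1 1 N (fun h1 => ?_) le_rfl le_rfl ?_).1
  · rw [am] at h1
    exact chkA N (by exact_mod_cast h1) h
  · have : a d 1 = 2 := by decide +kernel
    rw [this]
    omega

lemma pos2 (k N : ℕ) (hk : 2 ≤ k) (h1 : a d k ≤ N) :
    0 ≤ coeff N (P d * U d k) ∧ (ex k N = false → 1 ≤ coeff N (P d * U d k)) := by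
  refine pos_gen1 ok 17 bd pp ex 2 k N (fun h2 => ?_) (by omega) hk h1
  rw [am] at h2
  exact chkB N (by exact_mod_cast h2)

/-- values for `k = 1` -/
def v1 (m : ℕ) : ℤ := cc d 8 1 (m : ℤ)

lemma f1_eq (m : ℕ) (hm : m < 82) : coeff m (P d * U d 1) = v1 m := by
  apply coeff_eq_cc ok
  have : a d (1 + 8) = 126 := by decide +kernel
  rw [this]
  omega

/-- values with the part `6` -/
def v6 (n : ℕ) : ℤ := gs 6 v1 n

lemma f6_eq (m : ℕ) (hm : m < 82) : coeff m (geo 6 * (P d * U d 1)) = v6 m :=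
  coeff_geo_eq 6 (by norm_num) _ _ 82 f1_eq m hm

lemma c6 : ∀ n : ℕ, n < 36 → 0 ≤ v6 n ∧ (18 ≤ n → 1 ≤ v6 n) := by decide +kernel

lemma f6_pos : ∀ n, 18 ≤ n → 1 ≤ coeff n (geo 6 * (P d * U d 1)) :=
  stepA 6 (by norm_num) _ v1 82 36 18 f1_eq (by norm_num) nn1 (by norm_num)
    (fun n h1 h2 => (c6 n h1).2 h2)

/-- values with the parts `6, 11` -/
def v11 (n : ℕ) : ℤ := gs 11 v6 n

lemma f11_eq (m : ℕ) (hm : m < 82) :
    coeff m (geo 11 * (geo 6 * (P d * U d 1))) = v11 m :=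
  coeff_geo_eq 11 (by norm_num) _ _ 82 f6_eq m hm

lemma c11 : ∀ n : ℕ, n < 18 → 0 ≤ v11 n ∧ (12 ≤ n → 1 ≤ v11 n) := by decide +kernel

lemma c11b : ∀ n : ℕ, n < 12 → (v11 n = 0 ↔ (n < 2 ∨ n = 5 ∨ n = 7 ∨ n = 9 ∨ n = 11)) := by
  decide +kernel

lemma f11 : (∀ n, 0 ≤ coeff n (geo 11 * (geo 6 * (P d * U d 1)))) ∧
    ∀ n, 12 ≤ n → 1 ≤ coeff n (geo 11 * (geo 6 * (P d * U d 1))) :=
  stepB 11 (by norm_num) _ v6 82 18 12 f6_eq (by norm_num) f6_pos
    (fun n h => (c11 n h).1) (fun n h1 h2 => (c11 n h1).2 h2)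

end t149

lemma F52_eq (k : ℕ) (hk : 1 ≤ k) :
    F 5 2 k = (P t149.d * U t149.d k) * R (rest t149.d 5 2) :=
  F_eq1 t149.ok (fun _ => rfl) (by norm_num) (by norm_num) k hk (by decide) (by decide)
    (by decide) (by decide) (by decide) (by decide)

lemma F52_eq2 (k : ℕ) (hk : 1 ≤ k) :
    F 5 2 k = (geo 6 * (P t149.d * U t149.d k)) * R (fun i => rest t149.d 5 2 i ∧ i ≠ 6) := by
  rw [F52_eq k hk, R_eq_geo_mul (rest t149.d 5 2) 6 (by norm_num) (by decide)]
  ring

lemma F52_eq3 (k : ℕ) (hk : 1 ≤ k) :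
    F 5 2 k = (geo 11 * (geo 6 * (P t149.d * U t149.d k))) *
      R (fun i => (rest t149.d 5 2 i ∧ i ≠ 6) ∧ i ≠ 11) := by
  rw [F52_eq2 k hk, R_eq_geo_mul (fun i => rest t149.d 5 2 i ∧ i ≠ 6) 11 (by norm_num)
    (by decide)]
  ring

lemma case52 (k n : ℕ) (hk : 1 ≤ k) :
    0 ≤ c 5 2 k n ∧
      (c 5 2 k n = 0 ↔ n < Nk k ∨ (k = 1 ∧ (n = 5 ∨ n = 7 ∨ n = 9 ∨ n = 11))) := by
  have ha : ∀ k, a t149.d k = (Nk k : ℤ) := fun k => by rw [← Nk_eq]; rfl
  have hvan : ∀ k n : ℕ, 1 ≤ k → n < Nk k → c 5 2 k n = 0 := by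
    intro k n hk h
    unfold c
    rw [F52_eq k hk]
    exact coeff_zero_of_lt n (fun i hi => van_gen t149.ok k i (by rw [ha]; omega))
  rcases Nat.lt_or_ge k 2 with hk1 | hk2
  · have : k = 1 := by omega
    subst this
    have hge : coeff n (geo 11 * (geo 6 * (P t149.d * U t149.d 1))) ≤ c 5 2 1 n := by
      unfold c
      rw [F52_eq3 1 le_rfl]
      exact P235.coeff_mul_ge t149.f11.1 (fun n => coeff_R_nonneg _ n) (constantCoeff_R _) n
    have h0 := t149.f11.1 n
    refine ⟨by omega, ?_⟩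
    rcases Nat.lt_or_ge n 12 with hn | hn
    · have heq : c 5 2 1 n = t149.v11 n := by
        unfold c
        rw [F52_eq3 1 le_rfl, P235.coeff_mul_of_gap (constantCoeff_R _) 12 n
          (fun i h0 h1 => P235.coeff_R_zero _ 12 (fun i hi h0 => by
            obtain ⟨⟨⟨⟨⟨hp, h4⟩, h9⟩, h11⟩, h6⟩, h11'⟩ := hi
            have h4 : i ≠ 1 := h4
            have h9 : i ≠ 4 := h9
            have h11 : i ≠ 9 := h11
            unfold p1 at hp
            omega) i h0 h1) (fun i hi => by omega), t149.f11_eq n (by omega)]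
      rw [heq, t149.c11b n hn]
      have : Nk 1 = 2 := rfl
      omega
    · have h1 := t149.f11.2 n hn
      have : Nk 1 = 2 := rfl
      omega
  · have hnn : ∀ N, 0 ≤ coeff N (P t149.d * U t149.d k) := by
      intro N
      rcases lt_or_ge (N : ℤ) (a t149.d k) with h | h
      · rw [van_gen t149.ok k N h]
      · exact (t149.pos2 k N hk2 h).1
    have hgp := geo_pos 6 (by norm_num) (P t149.d * U t149.d k) (Nk k)
      (fun N => t149.ex k N) hnn (fun N h1 h2 => (t149.pos2 k N hk2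
        (by rw [ha]; exact_mod_cast h1)).2 h2) (by
        intro N h1 h2
        simp only [t149.ex] at h2
        simp at h2
        rcases h2 with h2 | ⟨h2, h3⟩
        · omega
        · subst h2
          have : Nk 2 = 7 := rfl
          omega)
    have hge : coeff n (geo 6 * (P t149.d * U t149.d k)) ≤ c 5 2 k n := by
      unfold c
      rw [F52_eq2 k hk]
      exact P235.coeff_mul_ge hgp.1 (fun n => coeff_R_nonneg _ n) (constantCoeff_R _) n
    have h0 := hgp.1 n
    refine ⟨by omega, ?_⟩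
    constructor
    · intro h
      left
      by_contra hcon
      have := hgp.2 n (by omega)
      omega
    · rintro (h | h)
      · exact hvan k n hk h
      · omega

end Pool.Agent.KS6_19.TP
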